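import Pool.Agent.L7h17.TR.Stm

/-! Project TR (helper17, MP_b7f146_ag): parts MAP and PERM. -/

set_option autoImplicit false

open MvPolynomial Pool.Agent.L7h17 Pool.Agent.L7h17.TR

namespace Pool.Agent.L7h60.TR

/-- a connected set in a finite union of disjoint sets which are closed off zero is in one of them -/
theorem conn_in_one {ι : Type} [Finite ι] (C K : ι → Set (Fin 3 → ℝ)) (hK : ∀ a, IsClosed (K a))
    (hC : ∀ a, C a = K a ∩ {v | v ≠ 0}) (hd : ∀ a b, a ≠ b → ∀ w ∈ C a, w ∉ C b)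
    (S : Set (Fin 3 → ℝ)) (hS : IsConnected S) (h0 : ∀ w ∈ S, w ≠ 0)
    (hcov : ∀ w ∈ S, ∃ a, w ∈ C a) : ∃ a, S ⊆ C a := by
  obtain ⟨w0, hw0⟩ := hS.nonempty
  obtain ⟨a, ha⟩ := hcov w0 hw0
  refine ⟨a, fun w1 hw1 => ?_⟩
  by_contra hcon
  obtain ⟨b, hb⟩ := hcov w1 hw1
  have hba : b ≠ a := by
    rintro rfl
    exact hcon hb
  have h1 := isPreconnected_closed_iff.1 hS.isPreconnected (K a) (⋃ c : {c : ι // c ≠ a}, K c)
    (hK a) (isClosed_iUnion_of_finite fun c => hK c) (by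
      intro w hw
      obtain ⟨c, hc⟩ := hcov w hw
      rw [hC] at hc
      by_cases hca : c = a
      · subst hca
        exact Or.inl hc.1
      · exact Or.inr (Set.mem_iUnion.2 ⟨⟨c, hca⟩, hc.1⟩))
    ⟨w0, hw0, by rw [hC] at ha; exact ha.1⟩
    ⟨w1, hw1, Set.mem_iUnion.2 ⟨⟨b, hba⟩, by rw [hC] at hb; exact hb.1⟩⟩
  obtain ⟨w, hw, hwa, hwu⟩ := h1
  obtain ⟨⟨c, hca⟩, hwc⟩ := Set.mem_iUnion.1 hwu
  refine hd c a hca w ?_ ?_
  · rw [hC]; exact ⟨hwc, h0 w hw⟩
  · rw [hC]; exact ⟨hwa, h0 w hw⟩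

theorem s_MAP : S_MAP := by
  intro k F D A hD hA hF i
  obtain ⟨hconn, hcl, hpos, hdis, hneg, hreal⟩ := hD
  choose K hK1 hK2 using hcl
  obtain ⟨B, hB⟩ := hA.exists_left_inv
  have hne : ∀ j, ∀ v ∈ D j, v ≠ 0 := by
    intro j v hv
    rw [hK2 j] at hv
    exact hv.2
  have hinj : ∀ v : Fin 3 → ℝ, v ≠ 0 → A.mulVec v ≠ 0 := by
    intro v hv h
    apply hv
    have h1 : B.mulVec (A.mulVec v) = v := by
      rw [Matrix.mulVec_mulVec, hB, Matrix.one_mulVec]
    rw [← h1, h, Matrix.mulVec_zero]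
  let C : Fin k × Bool → Set (Fin 3 → ℝ) := fun a => {w | (if a.2 then w else -w) ∈ D a.1}
  let L : Fin k × Bool → Set (Fin 3 → ℝ) := fun a => {w | (if a.2 then w else -w) ∈ K a.1}
  have hL : ∀ a, IsClosed (L a) := by
    rintro ⟨j, ε⟩
    cases ε
    · exact (hK1 j).preimage continuous_neg
    · exact hK1 j
  have hCL : ∀ a, C a = L a ∩ {v | v ≠ 0} := by
    rintro ⟨j, ε⟩
    ext w
    cases ε
    · show (-w ∈ D j) ↔ (-w ∈ K j ∧ w ≠ 0)
      rw [hK2 j]
      simp
    · show (w ∈ D j) ↔ (w ∈ K j ∧ w ≠ 0)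
      rw [hK2 j]
      rfl
  have hd : ∀ a b, a ≠ b → ∀ w ∈ C a, w ∉ C b := by
    rintro ⟨j, ε⟩ ⟨l, η⟩ hab w h1 h2
    cases ε
    · cases η
      · have hjl : j ≠ l := by
          rintro rfl
          exact hab rfl
        have h1' : -w ∈ D j := h1
        have h2' : -w ∈ D l := h2
        exact Set.disjoint_left.1 (hdis j l hjl) h1' h2'
      · have h1' : -w ∈ D j := h1
        have h2' : w ∈ D l := h2
        exact hneg l j w h2' h1'
    · cases η
      · have h1' : w ∈ D j := h1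
        have h2' : -w ∈ D l := h2
        exact hneg j l w h1' h2'
      · have hjl : j ≠ l := by
          rintro rfl
          exact hab rfl
        have h1' : w ∈ D j := h1
        have h2' : w ∈ D l := h2
        exact Set.disjoint_left.1 (hdis j l hjl) h1' h2'
  have hcont : Continuous fun v : Fin 3 → ℝ => A.mulVec v :=
    continuous_const.matrix_mulVec continuous_id
  obtain ⟨⟨j, ε⟩, hj⟩ := conn_in_one C L hL hCL hd ((fun v => A.mulVec v) '' D i)
    ((hconn i).image _ hcont.continuousOn) (by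
      rintro w ⟨v, hv, rfl⟩
      exact hinj v (hne i v hv)) (by
      rintro w ⟨v, hv, rfl⟩
      have h1 : v ∈ OC.realCone F := (hreal v).2 ⟨i, Or.inl hv⟩
      have h2 : A.mulVec v ∈ OC.realCone F := ⟨hinj v h1.1, hF v h1.2⟩
      obtain ⟨j, hj | hj⟩ := (hreal _).1 h2
      · exact ⟨(j, true), hj⟩
      · exact ⟨(j, false), hj⟩)
  refine ⟨j, ?_⟩
  cases ε
  · right
    intro v hv
    exact hj ⟨v, hv, rfl⟩
  · left
    intro v hv
    exact hj ⟨v, hv, rfl⟩

theorem s_PERM (h : S_MAP) : S_PERM := by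
  intro k F D A hD hA3 hF
  have hA : IsUnit A := IsUnit.of_pow_eq_one hA3 (by norm_num)
  have hmap := h k F D A hD hA hF
  obtain ⟨hconn, hcl, hpos, hdis, hneg, hreal⟩ := hD
  choose f hf using hmap
  have hAAA : ∀ v : Fin 3 → ℝ, A.mulVec (A.mulVec (A.mulVec v)) = v := by
    intro v
    rw [Matrix.mulVec_mulVec, Matrix.mulVec_mulVec, ← pow_two, ← pow_succ, hA3, Matrix.one_mulVec]
  -- membership up to sign
  have hP : ∀ i w, (w ∈ D i ∨ -w ∈ D i) → (A.mulVec w ∈ D (f i) ∨ -(A.mulVec w) ∈ D (f i)) := by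
    intro i w hw
    rcases hf i with h1 | h1
    · rcases hw with hw | hw
      · exact Or.inl (h1 w hw)
      · right
        have := h1 _ hw
        rwa [Matrix.mulVec_neg] at this
    · rcases hw with hw | hw
      · exact Or.inr (h1 w hw)
      · left
        have := h1 _ hw
        rwa [Matrix.mulVec_neg, neg_neg] at this
  have huniq : ∀ i j w, (w ∈ D i ∨ -w ∈ D i) → (w ∈ D j ∨ -w ∈ D j) → i = j := by
    intro i j w h1 h2
    by_contra hij
    rcases h1 with h1 | h1 <;> rcases h2 with h2 | h2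
    · exact Set.disjoint_left.1 (hdis i j hij) h1 h2
    · exact hneg i j w h1 h2
    · exact hneg j i w h2 h1
    · exact Set.disjoint_left.1 (hdis i j hij) h1 h2
  have hfff : ∀ i, f (f (f i)) = i := by
    intro i
    obtain ⟨v, hv⟩ := (hconn i).nonempty
    have h1 := hP _ _ (hP _ _ (hP i v (Or.inl hv)))
    rw [hAAA] at h1
    exact huniq _ _ v h1 (Or.inl hv)
  let π : Equiv.Perm (Fin k) := ⟨f, fun i => f (f i), hfff, hfff⟩
  have hback : ∀ i v, (A.mulVec v ∈ D (f i) ∨ -(A.mulVec v) ∈ D (f i)) → (v ∈ D i ∨ -v ∈ D i) := by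
    intro i v hv
    have h1 := hP _ _ (hP _ _ hv)
    rw [hAAA, hfff] at h1
    exact h1
  refine ⟨π, ?_, ?_, ?_⟩
  · ext i
    rw [pow_succ, pow_two]
    exact congrArg Fin.val (hfff i)
  · intro i
    rcases hf i with h1 | h1
    · left
      intro v
      refine ⟨h1 v, fun hv => ?_⟩
      have hv' : A.mulVec v ∈ D (f i) := hv
      rcases hback i v (Or.inl hv') with h2 | h2
      · exact h2
      · exfalso
        have h3 := h1 _ h2
        rw [Matrix.mulVec_neg] at h3
        exact hneg _ _ _ hv' h3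
    · right
      intro v
      refine ⟨h1 v, fun hv => ?_⟩
      have hv' : -(A.mulVec v) ∈ D (f i) := hv
      rcases hback i v (Or.inr hv') with h2 | h2
      · exact h2
      · exfalso
        have h3 := h1 _ h2
        rw [Matrix.mulVec_neg, neg_neg] at h3
        exact hneg _ _ _ h3 hv'
  · intro i hi v hv
    have hi' : f i = i := hi
    rcases hf i with h1 | h1
    · have := h1 v hv
      rwa [hi'] at this
    · exfalso
      rw [hi'] at h1
      have h2 := h1 v hv
      have h3 := h1 _ h2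
      have h4 := h1 _ h3
      rw [Matrix.mulVec_neg, neg_neg, Matrix.mulVec_neg, Matrix.mulVec_neg, hAAA] at h4
      exact hneg i i v hv h4

end Pool.Agent.L7h60.TR
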